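import Mathlib

/-!
# Generic lexicographic initial ideals of general forms need not be lexsegment

The variables `x_1, …, x_n` of the problem are `X 0, …, X (n - 1)` here (indexed by `Fin n`), and
the lexicographic order `MonomialOrder.lex` of Mathlib satisfies `X 0 ≻ X 1 ≻ ⋯ ≻ X (n - 1)`.
-/

namespace Pool.Agent.Results.MP_48c274_ag.UnbalancedDegrees

open MvPolynomial

open scoped MonomialOrder

/-- The exponent vectors of total degree `e` in `n` variables. -/
abbrev Exps (n e : ℕ) : Type :=
  {m : Fin n →₀ ℕ // m ∈ (Finset.univ : Finset (Fin n)).finsuppAntidiag e}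

/-- The index set of the coordinates of the affine space `𝔸^N` of the coefficients of `s` forms in
`n` variables of degrees `d 0, …, d (s - 1)`. -/
abbrev Coord (n : ℕ) {s : ℕ} (d : Fin s → ℕ) : Type :=
  (i : Fin s) × Exps n (d i)

variable {k : Type*} [Field k]

/-- The form `f_i` of degree `d i` with the coefficients given by the point `a`. -/
noncomputable def form (n : ℕ) {s : ℕ} (d : Fin s → ℕ) (a : Coord n d → k) (i : Fin s) :
    MvPolynomial (Fin n) k :=
  ∑ m : Exps n (d i), monomial m.1 (a ⟨i, m⟩)

/-- The ideal `I_a = (f_1, …, f_s)`. -/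
noncomputable def formsIdeal (n : ℕ) {s : ℕ} (d : Fin s → ℕ) (a : Coord n d → k) :
    Ideal (MvPolynomial (Fin n) k) :=
  Ideal.span (Set.range (form n d a))

/-- The initial ideal for the lexicographic order, generated by the leading monomials of the
nonzero elements of `I`. -/
noncomputable def lexInitialIdeal {n : ℕ} (I : Ideal (MvPolynomial (Fin n) k)) :
    Ideal (MvPolynomial (Fin n) k) :=
  Ideal.span ((fun m : Fin n →₀ ℕ => monomial m (1 : k)) ''
    {m | ∃ f ∈ I, f ≠ 0 ∧ MonomialOrder.lex.degree f = m})

/-- The lexsegment property: if a monomial `u` lies in `L` and `v` is a monomial of the same degree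
with `v ≻ u` in the lexicographic order, then `v` lies in `L`. -/
def IsLexsegment {n : ℕ} (L : Ideal (MvPolynomial (Fin n) k)) : Prop :=
  ∀ u v : Fin n →₀ ℕ, u.degree = v.degree → u ≺[MonomialOrder.lex] v →
    monomial u (1 : k) ∈ L → monomial v (1 : k) ∈ L

/-- `G` is the generic lex initial ideal `G(n; d_1, …, d_s)` over `k`: the initial ideal of `I_a` is
`G` for all `a` outside the zero locus of some nonzero polynomial on the coefficient space. -/
def IsGenericLexInitialIdeal (n : ℕ) {s : ℕ} (d : Fin s → ℕ)
    (G : Ideal (MvPolynomial (Fin n) k)) : Prop :=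
  ∃ P : MvPolynomial (Coord n d) k, P ≠ 0 ∧
    ∀ a : Coord n d → k, eval a P ≠ 0 → lexInitialIdeal (formsIdeal n d a) = G

section Aux

variable {n s : ℕ} {d : Fin s → ℕ}

lemma degree_of_coeff_ne_zero {f : MvPolynomial (Fin n) k} {t : ℕ} (hf : f.IsHomogeneous t)
    {m : Fin n →₀ ℕ} (hm : coeff m f ≠ 0) : m.degree = t := by
  have := hf hm
  rw [Finsupp.degree_eq_weight_one]
  exact this

lemma form_isHomogeneous (a : Coord n d → k) (i : Fin s) :
    (form n d a i).IsHomogeneous (d i) := by
  unfold form
  apply IsHomogeneous.sum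
  intro m _
  apply isHomogeneous_monomial
  have := m.2
  rw [Finset.mem_finsuppAntidiag] at this
  rw [Finsupp.degree_eq_sum]
  exact this.1

lemma coeff_form (a : Coord n d → k) (i : Fin s) (m : Exps n (d i)) :
    coeff m.1 (form n d a i) = a ⟨i, m⟩ := by
  classical
  unfold form
  rw [coeff_sum, Finset.sum_eq_single m]
  · simp
  · intro b _ hb
    rw [coeff_monomial, if_neg]
    intro h
    exact hb (Subtype.ext h)
  · simp

/-- The component of degree `e` of a multiple of a form. -/
lemma homogeneousComponent_mul_form {f : MvPolynomial (Fin n) k} {t : ℕ}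
    (hf : f.IsHomogeneous t) (c : MvPolynomial (Fin n) k) (e : ℕ) :
    homogeneousComponent e (c * f) =
      ∑ m ∈ c.support, if m.degree + t = e then coeff m c • (monomial m 1 * f) else 0 := by
  classical
  conv_lhs => rw [c.as_sum, Finset.sum_mul, map_sum]
  refine Finset.sum_congr rfl fun m _ => ?_
  have h1 : monomial m (coeff m c) * f = coeff m c • (monomial m 1 * f) := by
    rw [← smul_mul_assoc, smul_monomial, smul_eq_mul, mul_one]
  have h2 : (monomial m (1 : k) * f).IsHomogeneous (m.degree + t) :=
    (isHomogeneous_monomial _ rfl).mul hf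
  rw [h1, map_smul]
  split_ifs with h
  · rw [homogeneousComponent_of_mem h2, if_pos h.symm]
  · rw [homogeneousComponent_of_mem h2, if_neg (fun hh => h hh.symm), smul_zero]

/-- Nonzero polynomials with pairwise distinct leading monomials in a space spanned by a finite
set: their number is at most the cardinality of the set. -/
lemma card_le_of_degrees (T : Finset (MvPolynomial (Fin n) k)) (M : Finset (Fin n →₀ ℕ))
    (h : ∀ v ∈ M, ∃ f ∈ Submodule.span k (T : Set (MvPolynomial (Fin n) k)), f ≠ 0 ∧
      MonomialOrder.lex.degree f = v) : M.card ≤ T.card := by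
  classical
  choose! F hFmem hF0 hFdeg using h
  let W : Submodule k (MvPolynomial (Fin n) k) := Submodule.span k (T : Set _)
  let G : M → W := fun v => ⟨F v.1, hFmem v.1 v.2⟩
  have hG : LinearIndependent k G := by
    rw [linearIndependent_iff']
    intro s c hc
    by_contra hne
    push Not at hne
    obtain ⟨i, hi, hci⟩ := hne
    let s' := s.filter (fun j => c j ≠ 0)
    have hs' : s'.Nonempty := ⟨i, by simp [s', hi, hci]⟩
    obtain ⟨j, hj, hjmax⟩ := Finset.exists_max_image s'
      (fun j : M => MonomialOrder.lex.toSyn j.1) hs'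
    have hjs : j ∈ s := (Finset.mem_filter.mp hj).1
    have hcj : c j ≠ 0 := (Finset.mem_filter.mp hj).2
    have hc' : ∑ l ∈ s, c l • F l.1 = 0 := by
      have := congrArg (fun w : W => (w : MvPolynomial (Fin n) k)) hc
      simpa [G] using this
    have hcoef := congrArg (coeff j.1) hc'
    rw [coeff_sum, Finset.sum_eq_single j, coeff_smul, coeff_zero, smul_eq_mul] at hcoef
    · rcases mul_eq_zero.mp hcoef with h0 | h0
      · exact hcj h0
      · have h1 := hFdeg j.1 j.2
        have h2 : MonomialOrder.lex.leadingCoeff (F j.1) ≠ 0 :=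
          MonomialOrder.leadingCoeff_ne_zero_iff.mpr (hF0 j.1 j.2)
        rw [MonomialOrder.leadingCoeff, h1] at h2
        exact h2 h0
    · intro l hl hlj
      rw [coeff_smul, smul_eq_mul]
      by_cases hcl : c l = 0
      · rw [hcl, zero_mul]
      · have hl' : l ∈ s' := Finset.mem_filter.mpr ⟨hl, hcl⟩
        have h1 := hjmax l hl'
        have h2 : MonomialOrder.lex.toSyn l.1 ≠ MonomialOrder.lex.toSyn j.1 := by
          intro hh
          exact hlj (Subtype.ext (MonomialOrder.lex.toSyn.injective hh))
        have h3 : l.1 ≺[MonomialOrder.lex] j.1 := lt_of_le_of_ne h1 h2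
        have h4 : coeff j.1 (F l.1) = 0 := by
          apply MonomialOrder.coeff_eq_zero_of_lt (m := MonomialOrder.lex)
          rw [hFdeg l.1 l.2]
          exact h3
        rw [h4, mul_zero]
    · intro h
      exact absurd hjs h
  have : FiniteDimensional k W := FiniteDimensional.span_finset k T
  have h1 := hG.fintype_card_le_finrank
  have h2 : Module.finrank k W ≤ T.card := finrank_span_finset_le_card T
  simpa using h1.trans h2

lemma mem_exps {e : ℕ} {m : Fin n →₀ ℕ} :
    m ∈ (Finset.univ : Finset (Fin n)).finsuppAntidiag e ↔ m.degree = e := by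
  rw [Finset.mem_finsuppAntidiag, Finsupp.degree_eq_sum]
  simp

lemma form_eq_sum (a : Coord n d → k) (i : Fin s) :
    form n d a i = ∑ m ∈ (Finset.univ : Finset (Fin n)).finsuppAntidiag (d i),
      monomial m (coeff m (form n d a i)) := by
  classical
  conv_lhs => rw [(form n d a i).as_sum]
  apply Finset.sum_subset
  · intro m hm
    rw [mem_exps]
    exact degree_of_coeff_ne_zero (form_isHomogeneous a i) (mem_support_iff.mp hm)
  · intro m _ hm
    rw [notMem_support_iff.mp hm, monomial_zero]

/-- The degree four components of the elements of the ideal lie in a small span. -/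
lemma exists_span (a : Coord n d → k) (i j : Fin s) (hi : d i = 2) (hj : d j = 2)
    (hd : ∀ l, l ≠ i → l ≠ j → 4 ≤ d l) (hfi : form n d a i ≠ 0) :
    ∃ T : Finset (MvPolynomial (Fin n) k),
      T.card + 1 ≤ 2 * ((Finset.univ : Finset (Fin n)).finsuppAntidiag 2).card +
        (Finset.univ.filter (fun l => d l = 4)).card ∧
      ∀ g ∈ formsIdeal n d a,
        homogeneousComponent 4 g ∈ Submodule.span k (T : Set (MvPolynomial (Fin n) k)) := by
  classical
  obtain ⟨m0, hm0⟩ := exists_coeff_ne_zero hfi
  have hm0' : m0 ∈ (Finset.univ : Finset (Fin n)).finsuppAntidiag 2 := by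
    rw [mem_exps]
    exact (degree_of_coeff_ne_zero (form_isHomogeneous a i) hm0).trans hi
  set E := (Finset.univ : Finset (Fin n)).finsuppAntidiag 2 with hE
  set A := E.image (fun m => monomial m (1 : k) * form n d a i) with hA
  set B := (E.erase m0).image (fun m => monomial m (1 : k) * form n d a j) with hB
  set D := (Finset.univ.filter (fun l => d l = 4)).image (form n d a) with hD
  have hApos : 0 < E.card := Finset.card_pos.mpr ⟨m0, hm0'⟩
  refine ⟨A ∪ B ∪ D, ?_, ?_⟩
  · have h1 : A.card ≤ E.card := Finset.card_image_le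
    have h2 : B.card ≤ E.card - 1 := by
      rw [← Finset.card_erase_of_mem hm0']
      exact Finset.card_image_le
    have h3 : D.card ≤ (Finset.univ.filter (fun l => d l = 4)).card := Finset.card_image_le
    have h4 := Finset.card_union_le (A ∪ B) D
    have h5 := Finset.card_union_le A B
    omega
  · set W := Submodule.span k ((A ∪ B ∪ D : Finset _) : Set (MvPolynomial (Fin n) k)) with hW
    have hAW : ∀ m ∈ E, monomial m (1 : k) * form n d a i ∈ W := by
      intro m hm
      apply Submodule.subset_span
      simp only [Finset.coe_union, Set.mem_union, Finset.mem_coe]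
      exact Or.inl (Or.inl (Finset.mem_image_of_mem _ hm))
    have hBW' : ∀ m ∈ E.erase m0, monomial m (1 : k) * form n d a j ∈ W := by
      intro m hm
      apply Submodule.subset_span
      simp only [Finset.coe_union, Set.mem_union, Finset.mem_coe]
      exact Or.inl (Or.inr (Finset.mem_image_of_mem _ hm))
    have hDW : ∀ l, d l = 4 → form n d a l ∈ W := by
      intro l hl
      apply Submodule.subset_span
      simp only [Finset.coe_union, Set.mem_union, Finset.mem_coe]
      exact Or.inr (Finset.mem_image_of_mem _ (by simp [hl]))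
    have hprod : form n d a i * form n d a j ∈ W := by
      rw [form_eq_sum a j, Finset.mul_sum, hj]
      apply Submodule.sum_mem
      intro m hm
      have : form n d a i * monomial m (coeff m (form n d a j)) =
          coeff m (form n d a j) • (monomial m (1 : k) * form n d a i) := by
        rw [← smul_mul_assoc, smul_monomial, smul_eq_mul, mul_one, mul_comm]
      rw [this]
      exact W.smul_mem _ (hAW m hm)
    have hprod2 : form n d a i * form n d a j =
        coeff m0 (form n d a i) • (monomial m0 (1 : k) * form n d a j) +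
        ∑ m ∈ E.erase m0, coeff m (form n d a i) • (monomial m (1 : k) * form n d a j) := by
      conv_lhs => rw [form_eq_sum a i, Finset.sum_mul, hi]
      rw [← hE, ← Finset.add_sum_erase E _ hm0']
      congr 1
      · rw [← smul_mul_assoc, smul_monomial, smul_eq_mul, mul_one]
      · refine Finset.sum_congr rfl fun m _ => ?_
        rw [← smul_mul_assoc, smul_monomial, smul_eq_mul, mul_one]
    have hm0W : monomial m0 (1 : k) * form n d a j ∈ W := by
      have h1 : coeff m0 (form n d a i) • (monomial m0 (1 : k) * form n d a j) ∈ W := by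
        have h2 : ∑ m ∈ E.erase m0, coeff m (form n d a i) •
            (monomial m (1 : k) * form n d a j) ∈ W :=
          Submodule.sum_mem _ fun m hm => W.smul_mem _ (hBW' m hm)
        have h3 := W.sub_mem hprod h2
        rwa [hprod2, add_sub_cancel_right] at h3
      have h4 := W.smul_mem (coeff m0 (form n d a i))⁻¹ h1
      rwa [smul_smul, inv_mul_cancel₀ hm0, one_smul] at h4
    have hBW : ∀ m ∈ E, monomial m (1 : k) * form n d a j ∈ W := by
      intro m hm
      by_cases h : m = m0
      · rw [h]; exact hm0W
      · exact hBW' m (Finset.mem_erase.mpr ⟨h, hm⟩)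
    intro g hg
    rw [formsIdeal, Ideal.mem_span_range_iff_exists_fun] at hg
    obtain ⟨c, rfl⟩ := hg
    rw [map_sum]
    apply Submodule.sum_mem
    intro l _
    rw [homogeneousComponent_mul_form (form_isHomogeneous a l)]
    apply Submodule.sum_mem
    intro m _
    split_ifs with h
    · apply W.smul_mem
      by_cases hli : l = i
      · subst hli
        exact hAW m (mem_exps.mpr (by omega))
      · by_cases hlj : l = j
        · subst hlj
          exact hBW m (mem_exps.mpr (by omega))
        · have h4 := hd l hli hlj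
          have hm : m.degree = 0 := by omega
          have hm' : m = 0 := (Finsupp.degree_eq_zero_iff m).mp hm
          rw [hm', show (monomial (0 : Fin n →₀ ℕ) (1 : k)) = 1 from rfl, one_mul]
          exact hDW l (by omega)
    · exact W.zero_mem

/-- A quadratic form as a quadratic polynomial in one of the variables. -/
lemma exists_decomp {f : MvPolynomial (Fin n) k} (hf : f.IsHomogeneous 2) (Z : Fin n) :
    ∃ (α : k) (B D : MvPolynomial (Fin n) k), B ∈ supported k {l | l ≠ Z} ∧
      D ∈ supported k {l | l ≠ Z} ∧ B.IsHomogeneous 1 ∧ D.IsHomogeneous 2 ∧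
      f = C α * X Z ^ 2 + B * X Z + D := by
  classical
  have hdeg : ∀ m ∈ f.support, m.degree = 2 := by
    intro m hm
    exact degree_of_coeff_ne_zero hf (mem_support_iff.mp hm)
  have hsup : ∀ (m : Fin n →₀ ℕ) (c : k), m Z = 0 → monomial m c ∈ supported k {l | l ≠ Z} := by
    intro m c hm
    rw [mem_supported]
    intro l hl hlZ
    by_cases hc : c = 0
    · rw [hc, monomial_zero, vars_0] at hl
      exact absurd hl (by simp)
    · rw [Finset.mem_coe, vars_monomial hc, Finsupp.mem_support_iff, hlZ] at hl
      exact hl hm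
  refine ⟨coeff (Finsupp.single Z 2) f,
    ∑ m ∈ f.support with m Z = 1, monomial (m - Finsupp.single Z 1) (coeff m f),
    ∑ m ∈ f.support with m Z = 0, monomial m (coeff m f), ?_, ?_, ?_, ?_, ?_⟩
  · apply Subalgebra.sum_mem
    intro m hm
    apply hsup
    have := (Finset.mem_filter.mp hm).2
    simp [this]
  · apply Subalgebra.sum_mem
    intro m hm
    exact hsup _ _ (Finset.mem_filter.mp hm).2
  · apply IsHomogeneous.sum
    intro m hm
    apply isHomogeneous_monomial
    have h1 := (Finset.mem_filter.mp hm).2
    have h2 := hdeg m (Finset.mem_filter.mp hm).1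
    have h3 : m = (m - Finsupp.single Z 1) + Finsupp.single Z 1 := by
      rw [tsub_add_cancel_of_le]
      rw [Finsupp.single_le_iff, h1]
    have h4 := congrArg Finsupp.degree h3
    rw [map_add, Finsupp.degree_single, h2] at h4
    omega
  · apply IsHomogeneous.sum
    intro m hm
    apply isHomogeneous_monomial
    exact hdeg m (Finset.mem_filter.mp hm).1
  · have h1 : f = ∑ m ∈ f.support, ((if m = Finsupp.single Z 2 then
        monomial m (coeff m f) else 0) + (if m Z = 1 then monomial m (coeff m f) else 0) +
        (if m Z = 0 then monomial m (coeff m f) else 0)) := by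
      conv_lhs => rw [f.as_sum]
      refine Finset.sum_congr rfl fun m hm => ?_
      have h2 := hdeg m hm
      have h3 : m Z ≤ 2 := by
        rw [← h2]
        exact Finsupp.le_degree Z m
      by_cases hZ2 : m = Finsupp.single Z 2
      · have h4 : m Z = 2 := by rw [hZ2]; simp
        rw [if_pos hZ2, if_neg (by omega), if_neg (by omega), add_zero, add_zero]
      · have h4 : m Z ≠ 2 := by
          intro h5
          apply hZ2
          have h6 : m = (m - Finsupp.single Z 2) + Finsupp.single Z 2 := by
            rw [tsub_add_cancel_of_le]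
            rw [Finsupp.single_le_iff, h5]
          have h7 := congrArg Finsupp.degree h6
          rw [map_add, Finsupp.degree_single, h2] at h7
          have h8 : (m - Finsupp.single Z 2).degree = 0 := by omega
          rw [Finsupp.degree_eq_zero_iff] at h8
          rw [h6, h8, zero_add]
        rw [if_neg hZ2, zero_add]
        by_cases hZ1 : m Z = 1
        · rw [if_pos hZ1, if_neg (by omega), add_zero]
        · rw [if_neg hZ1, if_pos (by omega), zero_add]
    conv_lhs => rw [h1]
    rw [Finset.sum_add_distrib, Finset.sum_add_distrib, Finset.sum_ite_eq',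
      ← Finset.sum_filter, ← Finset.sum_filter, Finset.sum_mul]
    congr 1
    congr 1
    · split_ifs with h2
      · rw [X_pow_eq_monomial, C_mul_monomial, mul_one]
      · rw [notMem_support_iff.mp h2, C_0, zero_mul]
    · refine Finset.sum_congr rfl fun m hm => ?_
      have h1 := (Finset.mem_filter.mp hm).2
      rw [X, monomial_mul, mul_one, tsub_add_cancel_of_le]
      rw [Finsupp.single_le_iff, h1]

lemma eval_congr_supported {p : MvPolynomial (Fin n) k} {t : Set (Fin n)}
    (hp : p ∈ supported k t) (x y : Fin n → k) (h : ∀ l ∈ t, x l = y l) :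
    eval x p = eval y p := by
  apply hom_congr_vars
  · ext r
    simp
  · intro l hl _
    rw [eval_X, eval_X]
    exact h l (mem_supported.mp hp hl)
  · rfl

/-- The eliminant of two quadratic forms. -/
lemma exists_eliminant {F G : MvPolynomial (Fin n) k} (hF : F.IsHomogeneous 2)
    (hG : G.IsHomogeneous 2) (Z O : Fin n) (hZO : O ≠ Z) :
    ∃ p q : MvPolynomial (Fin n) k,
      p * F + q * G ∈ supported k {l | l ≠ Z} ∧ (p * F + q * G).IsHomogeneous 4 ∧
      eval (Pi.single O 1) (p * F + q * G) =
        eval (Pi.single O 1) F *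
          (eval (Pi.single Z 1) G * (eval (Pi.single Z 1 + Pi.single O 1) F -
              eval (Pi.single Z 1) F - eval (Pi.single O 1) F) -
            eval (Pi.single Z 1) F * (eval (Pi.single Z 1 + Pi.single O 1) G -
              eval (Pi.single Z 1) G - eval (Pi.single O 1) G)) ^ 2 +
        eval (Pi.single Z 1) F *
          (eval (Pi.single Z 1) G * eval (Pi.single O 1) F -
            eval (Pi.single Z 1) F * eval (Pi.single O 1) G) ^ 2 -
        (eval (Pi.single Z 1 + Pi.single O 1) F -
              eval (Pi.single Z 1) F - eval (Pi.single O 1) F) *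
          (eval (Pi.single Z 1) G * (eval (Pi.single Z 1 + Pi.single O 1) F -
              eval (Pi.single Z 1) F - eval (Pi.single O 1) F) -
            eval (Pi.single Z 1) F * (eval (Pi.single Z 1 + Pi.single O 1) G -
              eval (Pi.single Z 1) G - eval (Pi.single O 1) G)) *
          (eval (Pi.single Z 1) G * eval (Pi.single O 1) F -
            eval (Pi.single Z 1) F * eval (Pi.single O 1) G) := by
  obtain ⟨α, B, D, hB, hD, hB1, hD2, hFeq⟩ := exists_decomp hF Z
  obtain ⟨α', B', D', hB', hD', hB1', hD2', hGeq⟩ := exists_decomp hG Z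
  -- values at the points
  have hz : ∀ {p : MvPolynomial (Fin n) k} {e : ℕ}, p ∈ supported k {l | l ≠ Z} →
      p.IsHomogeneous e → e ≠ 0 → eval (Pi.single Z 1) p = 0 := by
    intro p e hp he he0
    rw [eval_congr_supported hp (Pi.single Z 1) 0 (fun l hl => by simp [Pi.single_eq_of_ne hl])]
    have h0 : eval (0 : Fin n → k) p = coeff 0 p := by
      have := eval₂Hom_zero_apply (σ := Fin n) (RingHom.id k) p
      exact this
    rw [h0]
    by_contra h1
    have := degree_of_coeff_ne_zero he h1
    simp at this
    exact he0 this.symm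
  have ho : ∀ {p : MvPolynomial (Fin n) k}, p ∈ supported k {l | l ≠ Z} →
      eval (Pi.single Z 1 + Pi.single O 1) p = eval (Pi.single O 1) p := by
    intro p hp
    apply eval_congr_supported hp
    intro l hl
    simp [Pi.single_eq_of_ne hl]
  have hFZ : eval (Pi.single Z 1) F = α := by
    rw [hFeq]
    simp [hz hB hB1 one_ne_zero, hz hD hD2 two_ne_zero]
  have hGZ : eval (Pi.single Z 1) G = α' := by
    rw [hGeq]
    simp [hz hB' hB1' one_ne_zero, hz hD' hD2' two_ne_zero]
  have hFO : eval (Pi.single O 1) F = eval (Pi.single O 1) D := by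
    rw [hFeq]
    simp [Pi.single_eq_of_ne hZO.symm]
  have hGO : eval (Pi.single O 1) G = eval (Pi.single O 1) D' := by
    rw [hGeq]
    simp [Pi.single_eq_of_ne hZO.symm]
  have hFB : eval (Pi.single Z 1 + Pi.single O 1) F - eval (Pi.single Z 1) F -
      eval (Pi.single O 1) F = eval (Pi.single O 1) B := by
    rw [hFZ, hFO, hFeq]
    simp only [map_add, map_mul, map_pow, eval_C, eval_X, ho hB, ho hD, Pi.add_apply,
      Pi.single_eq_same, Pi.single_eq_of_ne hZO.symm]
    ring
  have hGB : eval (Pi.single Z 1 + Pi.single O 1) G - eval (Pi.single Z 1) G -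
      eval (Pi.single O 1) G = eval (Pi.single O 1) B' := by
    rw [hGZ, hGO, hGeq]
    simp only [map_add, map_mul, map_pow, eval_C, eval_X, ho hB', ho hD', Pi.add_apply,
      Pi.single_eq_same, Pi.single_eq_of_ne hZO.symm]
    ring
  set L := C α' * B - C α * B' with hL
  set M := C α' * D - C α * D' with hM
  have hLs : L ∈ supported k {l | l ≠ Z} := 
    Subalgebra.sub_mem _ (Subalgebra.mul_mem _ (Subalgebra.algebraMap_mem _ α') hB)
      (Subalgebra.mul_mem _ (Subalgebra.algebraMap_mem _ α) hB')
  have hMs : M ∈ supported k {l | l ≠ Z} := 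
    Subalgebra.sub_mem _ (Subalgebra.mul_mem _ (Subalgebra.algebraMap_mem _ α') hD)
      (Subalgebra.mul_mem _ (Subalgebra.algebraMap_mem _ α) hD')
  have hL1 : L.IsHomogeneous 1 := by
    have h1 := (isHomogeneous_C (Fin n) α').mul hB1
    have h2 := (isHomogeneous_C (Fin n) α).mul hB1'
    simpa using h1.sub h2
  have hM2 : M.IsHomogeneous 2 := by
    have h1 := (isHomogeneous_C (Fin n) α').mul hD2
    have h2 := (isHomogeneous_C (Fin n) α).mul hD2'
    simpa using h1.sub h2
  have hR : L ^ 2 * F - (C α * L * X Z - C α * M + B * L) * (C α' * F - C α * G) =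
      D * L ^ 2 + C α * M ^ 2 - B * L * M := by
    rw [hFeq, hGeq, hL, hM]
    ring
  refine ⟨L ^ 2 - (C α * L * X Z - C α * M + B * L) * C α',
    (C α * L * X Z - C α * M + B * L) * C α, ?_⟩
  have hR' : (L ^ 2 - (C α * L * X Z - C α * M + B * L) * C α') * F +
      (C α * L * X Z - C α * M + B * L) * C α * G = D * L ^ 2 + C α * M ^ 2 - B * L * M := by
    rw [← hR]
    ring
  rw [hR']
  refine ⟨?_, ?_, ?_⟩
  · exact Subalgebra.sub_mem _ (Subalgebra.add_mem _ (Subalgebra.mul_mem _ hD
      (Subalgebra.pow_mem _ hLs 2)) (Subalgebra.mul_mem _ (Subalgebra.algebraMap_mem _ α)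
      (Subalgebra.pow_mem _ hMs 2))) (Subalgebra.mul_mem _ (Subalgebra.mul_mem _ hB hLs) hMs)
  · have h1 : (D * L ^ 2).IsHomogeneous 4 := by simpa using hD2.mul (hL1.pow 2)
    have h2 : (C α * M ^ 2).IsHomogeneous 4 := by
      simpa using (isHomogeneous_C (Fin n) α).mul (hM2.pow 2)
    have h3 : (B * L * M).IsHomogeneous 4 := by simpa using (hB1.mul hL1).mul hM2
    exact (h1.add h2).sub h3
  · rw [hFB, hGB, hFZ, hGZ, hFO, hGO, hL, hM]
    simp only [map_add, map_sub, map_mul, map_pow, eval_C]

/-- The value of a form at a point, as a linear polynomial in the coefficients. -/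
noncomputable def evPoly (i : Fin s) (pt : Fin n → k) : MvPolynomial (Coord n d) k :=
  ∑ m : Exps n (d i), C (m.1.prod fun l e => pt l ^ e) * X ⟨i, m⟩

lemma eval_evPoly (i : Fin s) (pt : Fin n → k) (a : Coord n d → k) :
    eval a (evPoly i pt) = eval pt (form n d a i) := by
  unfold evPoly form
  rw [map_sum, map_sum]
  refine Finset.sum_congr rfl fun m _ => ?_
  rw [map_mul, eval_C, eval_X, eval_monomial, mul_comm]

/-- The condition on the coefficients. -/
noncomputable def condPoly (i j : Fin s) (Z O : Fin n) : MvPolynomial (Coord n d) k :=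
  evPoly i (Pi.single O 1) *
    (evPoly j (Pi.single Z 1) * (evPoly i (Pi.single Z 1 + Pi.single O 1) -
        evPoly i (Pi.single Z 1) - evPoly i (Pi.single O 1)) -
      evPoly i (Pi.single Z 1) * (evPoly j (Pi.single Z 1 + Pi.single O 1) -
        evPoly j (Pi.single Z 1) - evPoly j (Pi.single O 1))) ^ 2 +
  evPoly i (Pi.single Z 1) *
    (evPoly j (Pi.single Z 1) * evPoly i (Pi.single O 1) -
      evPoly i (Pi.single Z 1) * evPoly j (Pi.single O 1)) ^ 2 -
  (evPoly i (Pi.single Z 1 + Pi.single O 1) -
        evPoly i (Pi.single Z 1) - evPoly i (Pi.single O 1)) *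
    (evPoly j (Pi.single Z 1) * (evPoly i (Pi.single Z 1 + Pi.single O 1) -
        evPoly i (Pi.single Z 1) - evPoly i (Pi.single O 1)) -
      evPoly i (Pi.single Z 1) * (evPoly j (Pi.single Z 1 + Pi.single O 1) -
        evPoly j (Pi.single Z 1) - evPoly j (Pi.single O 1))) *
    (evPoly j (Pi.single Z 1) * evPoly i (Pi.single O 1) -
      evPoly i (Pi.single Z 1) * evPoly j (Pi.single O 1))

lemma form_of_coeff {t : ℕ} {Q : MvPolynomial (Fin n) k} (i : Fin s) (a : Coord n d → k)
    (hQ : Q.IsHomogeneous t) (hi : d i = t) (ha : ∀ m, a ⟨i, m⟩ = coeff m.1 Q) :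
    form n d a i = Q := by
  classical
  ext m
  by_cases hm : m ∈ (Finset.univ : Finset (Fin n)).finsuppAntidiag (d i)
  · have := coeff_form a i ⟨m, hm⟩
    rw [this, ha]
  · rw [mem_exps] at hm
    have h1 : coeff m (form n d a i) = 0 := by
      by_contra h
      exact hm (degree_of_coeff_ne_zero (form_isHomogeneous a i) h)
    have h2 : coeff m Q = 0 := by
      by_contra h
      exact hm ((degree_of_coeff_ne_zero hQ h).trans hi.symm)
    rw [h1, h2]

lemma condPoly_ne_zero (i j : Fin s) (hij : i ≠ j) (hi : d i = 2) (hj : d j = 2) (Z O : Fin n)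
    (hZO : O ≠ Z) : (condPoly i j Z O : MvPolynomial (Coord n d) k) ≠ 0 := by
  classical
  intro h
  let a : Coord n d → k := fun c => if c.1 = i then coeff c.2.1 (X Z ^ 2 : MvPolynomial (Fin n) k)
    else if c.1 = j then coeff c.2.1 (X O ^ 2 : MvPolynomial (Fin n) k) else 0
  have h1 : form n d a i = X Z ^ 2 := by
    apply form_of_coeff i a (isHomogeneous_X_pow Z 2) hi
    intro m
    simp [a]
  have h2 : form n d a j = X O ^ 2 := by
    apply form_of_coeff j a (isHomogeneous_X_pow O 2) hj
    intro m
    simp [a, hij.symm]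
  have h3 := congrArg (eval a) h
  simp only [condPoly, map_add, map_sub, map_mul, map_pow, map_zero, eval_evPoly, h1, h2, eval_X,
    Pi.add_apply, Pi.single_eq_same, Pi.single_eq_of_ne hZO, Pi.single_eq_of_ne hZO.symm] at h3
  norm_num at h3

/-- The main step: under a nonvanishing condition on the two quadrics, the initial ideal is not
lexsegment. -/
lemma not_isLexsegment (hn : 4 ≤ n) (a : Coord n d → k) (i j : Fin s)
    (hi : d i = 2) (hj : d j = 2) (hd : ∀ l, l ≠ i → l ≠ j → 4 ≤ d l)
    (hcard : (Finset.univ.filter (fun l => d l = 4)).card + n * (n + 1) ≤ (n + 2).choose 3 + 1)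
    (ha : eval a (condPoly i j (⟨0, by omega⟩ : Fin n) ⟨1, by omega⟩) ≠ 0) :
    ¬ IsLexsegment (lexInitialIdeal (formsIdeal n d a)) := by
  classical
  intro hlex
  set Z : Fin n := ⟨0, by omega⟩ with hZ
  set O : Fin n := ⟨1, by omega⟩ with hO
  have hZO : O ≠ Z := by simp [hZ, hO]
  have hFh : (form n d a i).IsHomogeneous 2 := hi ▸ form_isHomogeneous a i
  have hGh : (form n d a j).IsHomogeneous 2 := hj ▸ form_isHomogeneous a j
  obtain ⟨p, q, hRs, hR4, hRe⟩ := exists_eliminant hFh hGh Z O hZO
  simp only [condPoly, map_add, map_sub, map_mul, map_pow, eval_evPoly] at ha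
  rw [← hRe] at ha
  set R := p * form n d a i + q * form n d a j with hR
  have hR0 : R ≠ 0 := by
    intro h
    rw [h, map_zero] at ha
    exact ha rfl
  have hRI : R ∈ formsIdeal n d a := by
    apply Ideal.add_mem
    · exact Ideal.mul_mem_left _ _ (Ideal.subset_span ⟨i, rfl⟩)
    · exact Ideal.mul_mem_left _ _ (Ideal.subset_span ⟨j, rfl⟩)
  have hFne : form n d a i ≠ 0 := by
    intro h
    rw [h] at hRe
    rw [hRe] at ha
    apply ha
    simp
  set u := MonomialOrder.lex.degree R with hu
  have hucoef : coeff u R ≠ 0 := (MonomialOrder.leadingCoeff_ne_zero_iff).mpr hR0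
  have hudeg : u.degree = 4 := degree_of_coeff_ne_zero hR4 hucoef
  have huZ : u Z = 0 := by
    by_contra h
    have h1 : Z ∈ R.vars := by
      rw [mem_vars_iff_mem_support]
      exact ⟨u, mem_support_iff.mpr hucoef, Finsupp.mem_support_iff.mpr h⟩
    exact (mem_supported.mp hRs h1) rfl
  have huin : monomial u (1 : k) ∈ lexInitialIdeal (formsIdeal n d a) :=
    Ideal.subset_span ⟨u, ⟨R, hRI, hR0, rfl⟩, rfl⟩
  set E3 := (Finset.univ : Finset (Fin n)).finsuppAntidiag 3 with hE3
  set M := insert u (E3.image (fun w => w + Finsupp.single Z 1)) with hM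
  have hMmem : ∀ v ∈ M, monomial v (1 : k) ∈ lexInitialIdeal (formsIdeal n d a) ∧
      v.degree = 4 := by
    intro v hv
    rw [hM, Finset.mem_insert, Finset.mem_image] at hv
    rcases hv with rfl | ⟨w, hw, rfl⟩
    · exact ⟨huin, hudeg⟩
    · have hwdeg : (w + Finsupp.single Z 1).degree = 4 := by
        rw [map_add, Finsupp.degree_single, mem_exps.mp hw]
      refine ⟨?_, hwdeg⟩
      refine hlex u _ (hudeg.trans hwdeg.symm) ?_ huin
      rw [MonomialOrder.lex_lt_iff, Finsupp.Lex.lt_iff]
      refine ⟨Z, ?_, ?_⟩
      · intro l hl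
        exfalso
        have : (l : ℕ) < 0 := hl
        omega
      · simp [huZ]
  obtain ⟨T, hTcard, hT⟩ := exists_span a i j hi hj hd hFne
  have hMcard : M.card ≤ T.card := by
    apply card_le_of_degrees
    intro v hv
    obtain ⟨hv1, hv4⟩ := hMmem v hv
    rw [lexInitialIdeal, mem_ideal_span_monomial_image] at hv1
    obtain ⟨w, ⟨f, hfI, hf0, hfw⟩, hwv⟩ := hv1 v (by simp [mem_support_iff])
    set g := monomial (v - w) (1 : k) * f with hg
    have hgI : g ∈ formsIdeal n d a := Ideal.mul_mem_left _ _ hfI
    have hmon : monomial (v - w) (1 : k) ≠ 0 := by simp [monomial_eq_zero]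
    have hgdeg : MonomialOrder.lex.degree g = v := by
      rw [hg, MonomialOrder.degree_mul hmon hf0, hfw, MonomialOrder.degree_monomial,
        if_neg one_ne_zero, tsub_add_cancel_of_le hwv]
    have hg0 : g ≠ 0 := mul_ne_zero hmon hf0
    have hgcoef : coeff v g ≠ 0 := by
      have := (MonomialOrder.leadingCoeff_ne_zero_iff (m := MonomialOrder.lex)).mpr hg0
      rwa [MonomialOrder.leadingCoeff, hgdeg] at this
    have hcoef : coeff v (homogeneousComponent 4 g) ≠ 0 := by
      rw [coeff_homogeneousComponent, if_pos hv4]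
      exact hgcoef
    refine ⟨homogeneousComponent 4 g, hT g hgI, ?_, ?_⟩
    · intro h
      rw [h, coeff_zero] at hcoef
      exact hcoef rfl
    · apply MonomialOrder.lex.toSyn.injective
      apply le_antisymm
      · rw [MonomialOrder.degree_le_iff]
        intro w' hw'
        rw [← hgdeg]
        apply MonomialOrder.le_degree
        rw [mem_support_iff, coeff_homogeneousComponent] at hw'
        rw [mem_support_iff]
        intro h0
        apply hw'
        rw [h0, ite_self]
      · exact MonomialOrder.le_degree (mem_support_iff.mpr hcoef)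
  have hMcard2 : M.card = (n + 2).choose 3 + 1 := by
    rw [hM, Finset.card_insert_of_notMem, Finset.card_image_of_injective,
      hE3, Finset.card_finsuppAntidiag_nat_eq_choose, Finset.card_univ, Fintype.card_fin]
    · congr 1
    · intro x y hxy
      exact add_right_cancel hxy
    · intro h
      rw [Finset.mem_image] at h
      obtain ⟨w, _, hw⟩ := h
      rw [← hw] at huZ
      simp at huZ
  have hE2 : ((Finset.univ : Finset (Fin n)).finsuppAntidiag 2).card = (n + 1).choose 2 := by
    rw [Finset.card_finsuppAntidiag_nat_eq_choose, Finset.card_univ, Fintype.card_fin]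
    congr 1
  have hch : 2 * (n + 1).choose 2 = n * (n + 1) := by
    rw [Nat.choose_two_right, Nat.add_sub_cancel, Nat.mul_div_cancel', mul_comm]
    exact (Nat.even_mul_pred_self (n + 1)).two_dvd
  rw [hE2] at hTcard
  omega

end Aux

/-- **Generic lexicographic initial ideals of general forms of unbalanced degrees.**
Let `k` be an infinite field of any characteristic, `n ≥ 4`, and let `d 0, …, d (s - 1)` be degrees
two of which equal `2` while the other ones are at least `4`, with at most
`(n + 2).choose 3 + 1 - n (n + 1)` of them equal to `4` (for `n = 4` this number is `1`).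
Then the lex initial ideal of the ideal generated by general forms of these degrees is not a
lexsegment ideal; in particular `G(n; d_1, …, d_s)` is not lexsegment.
This applies to some degrees for all `n ≥ 4` and all `s ≥ max (2, n - 1)`. -/
theorem result (k : Type*) [Field k] [Infinite k] (n s : ℕ) (hn : 4 ≤ n) (d : Fin s → ℕ)
    (i j : Fin s) (hij : i ≠ j) (hi : d i = 2) (hj : d j = 2)
    (hd : ∀ l, l ≠ i → l ≠ j → 4 ≤ d l)
    (hcard : (Finset.univ.filter (fun l => d l = 4)).card + n * (n + 1) ≤
      (n + 2).choose 3 + 1) :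
    (∃ P : MvPolynomial (Coord n d) k, P ≠ 0 ∧ ∀ a : Coord n d → k, eval a P ≠ 0 →
      ¬ IsLexsegment (lexInitialIdeal (formsIdeal n d a))) ∧
    ∀ G : Ideal (MvPolynomial (Fin n) k), IsGenericLexInitialIdeal n d G → ¬ IsLexsegment G := by
  have h1 : ∃ P : MvPolynomial (Coord n d) k, P ≠ 0 ∧ ∀ a : Coord n d → k, eval a P ≠ 0 →
      ¬ IsLexsegment (lexInitialIdeal (formsIdeal n d a)) :=
    ⟨condPoly i j ⟨0, by omega⟩ ⟨1, by omega⟩,
      condPoly_ne_zero i j hij hi hj _ _ (by simp),
      fun a ha => not_isLexsegment hn a i j hi hj hd hcard ha⟩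
  refine ⟨h1, ?_⟩
  rintro G ⟨Q, hQ0, hQ⟩ hlex
  obtain ⟨P, hP0, hP⟩ := h1
  have hPQ : P * Q ≠ 0 := mul_ne_zero hP0 hQ0
  obtain ⟨a, ha⟩ : ∃ a : Coord n d → k, eval a (P * Q) ≠ 0 := by
    by_contra h
    push Not at h
    exact hPQ (MvPolynomial.funext fun a => by rw [h a, map_zero])
  rw [map_mul] at ha
  apply hP a (left_ne_zero_of_mul ha)
  rw [hQ a (right_ne_zero_of_mul ha)]
  exact hlex

end Pool.Agent.Results.MP_48c274_ag.UnbalancedDegrees
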